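import Pool.Agent.H15.PJ.Stm

/-!
# Crew PJ, part LIN: coordinates
-/

set_option autoImplicit false

open MeasureTheory Set
open scoped ENNReal NNReal

namespace Pool.Agent.H4.PJ

open Pool.Agent.H15.PJ

theorem exists_gens {n k : ℕ} (X : Set (Fin n → ℝ)) (hk : ad X = k) :
    ∃ a : Fin k → (Fin n → ℝ), (∀ i, a i ∈ X) ∧
      Submodule.span ℝ (range fun i => hom (a i)) = Submodule.span ℝ (hom '' X) := by
  classical
  obtain ⟨b, hbs, hspan, hli⟩ := exists_linearIndependent ℝ (hom '' X)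
  have : Finite b := hli.finite
  have : Fintype b := Fintype.ofFinite b
  have hcard : Fintype.card b = k := by
    have h1 := finrank_span_set_eq_card hli
    rw [hspan] at h1
    unfold ad at hk
    rw [hk] at h1
    rw [← Set.toFinset_card, ← h1]
  obtain ⟨e⟩ : Nonempty (Fin k ≃ b) := ⟨(Fintype.equivFinOfCardEq hcard).symm⟩
  have hch : ∀ i : Fin k, ∃ a ∈ X, hom a = (e i : ℝ × (Fin n → ℝ)) := fun i => hbs (e i).2
  choose a ha hae using hch
  refine ⟨a, ha, ?_⟩
  have hr : range (fun i => hom (a i)) = b := by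
    ext y
    constructor
    · rintro ⟨i, rfl⟩
      show hom (a i) ∈ b
      rw [hae i]; exact (e i).2
    · intro hy
      refine ⟨e.symm ⟨y, hy⟩, ?_⟩
      show hom (a (e.symm ⟨y, hy⟩)) = y
      rw [hae, Equiv.apply_symm_apply]
  rw [hr, hspan]

theorem hom_fst {n : ℕ} (x : Fin n → ℝ) : (hom x).1 = 1 := rfl

theorem hom_snd {n : ℕ} (x : Fin n → ℝ) : (hom x).2 = x := rfl

/-- the linear part of the coordinate map -/
noncomputable def L0 {m : ℕ} (a : Fin 3 → (Fin (m + 2) → ℝ)) (r : Fin m → (Fin (m + 2) → ℝ)) :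
    (Fin (m + 2) → ℝ) →ₗ[ℝ] (Fin (m + 2) → ℝ) :=
  (LinearMap.proj (1 : Fin (m + 2))).smulRight (a 1 - a 0) +
    (LinearMap.proj (0 : Fin (m + 2))).smulRight (a 2 - a 0) +
    ∑ j : Fin m, (LinearMap.proj (j.succ.succ : Fin (m + 2))).smulRight (r j - a 0)

theorem L0_apply {m : ℕ} (a : Fin 3 → (Fin (m + 2) → ℝ)) (r : Fin m → (Fin (m + 2) → ℝ))
    (x : Fin (m + 2) → ℝ) : L0 a r x = x 1 • (a 1 - a 0) + x 0 • (a 2 - a 0) +
      ∑ j : Fin m, x j.succ.succ • (r j - a 0) := by
  unfold L0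
  rw [LinearMap.add_apply, LinearMap.add_apply, LinearMap.sum_apply]
  rfl

theorem t_LIN : S_LIN := by
  intro m P R hP hR hspan
  have hfr : Module.finrank ℝ (ℝ × (Fin (m + 2) → ℝ)) = m + 3 := by
    rw [Module.finrank_prod, Module.finrank_self, Module.finrank_fin_fun]; ring
  have hsup : Submodule.span ℝ (hom '' P) ⊔ Submodule.span ℝ (hom '' R) = ⊤ := by
    rw [← Submodule.span_union, ← image_union]; exact hspan
  have hle := Submodule.finrank_add_le_finrank_add_finrank
    (Submodule.span ℝ (hom '' P)) (Submodule.span ℝ (hom '' R))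
  rw [hsup, finrank_top, hfr] at hle
  have hP3 : ad P = 3 := by unfold ad at *; omega
  have hRm : ad R = m := by unfold ad at *; omega
  obtain ⟨a, haP, hasp⟩ := exists_gens P hP3
  obtain ⟨r, hrR, hrsp⟩ := exists_gens R hRm
  set w : Fin 3 ⊕ Fin m → ℝ × (Fin (m + 2) → ℝ) :=
    Sum.elim (fun i => hom (a i)) (fun j => hom (r j)) with hw
  have hwsp : ⊤ ≤ Submodule.span ℝ (range w) := by
    rw [hw, Sum.elim_range, Submodule.span_union, hasp, hrsp, hsup]
  have hli : LinearIndependent ℝ w := by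
    refine linearIndependent_of_top_le_span_of_card_eq_finrank hwsp ?_
    rw [hfr]; simp; ring
  rw [Fintype.linearIndependent_iff] at hli
  have hinj : Function.Injective (L0 a r) := by
    rw [← LinearMap.ker_eq_bot, LinearMap.ker_eq_bot']
    intro x hx
    rw [L0_apply] at hx
    set σ : ℝ := x 1 + x 0 + ∑ j : Fin m, x j.succ.succ with hσ
    have h0 := hli (Sum.elim ![-σ, x 1, x 0] (fun j => x j.succ.succ)) (by
      rw [Fintype.sum_sum_type, Fin.sum_univ_three]
      simp only [hw, Sum.elim_inl, Sum.elim_inr, Matrix.cons_val_zero, Matrix.cons_val_one,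
        Matrix.cons_val]
      refine Prod.ext ?_ ?_
      · simp only [Prod.fst_add, Prod.smul_fst, Prod.fst_sum, hom_fst, Prod.fst_zero, smul_eq_mul,
          mul_one]
        rw [hσ]; ring
      · simp only [Prod.snd_add, Prod.smul_snd, Prod.snd_sum, hom_snd, Prod.snd_zero]
        rw [← hx]
        simp only [smul_sub, Finset.sum_sub_distrib, ← Finset.sum_smul]
        rw [hσ]
        module)
    have h1 : ∀ j : Fin m, x j.succ.succ = 0 := fun j => h0 (Sum.inr j)
    have h2 : x 1 = 0 := h0 (Sum.inl 1)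
    have h3 : x 0 = 0 := h0 (Sum.inl 2)
    funext i
    refine Fin.cases h3 (fun i' => ?_) i
    refine Fin.cases h2 (fun j => h1 j) i'
  set A : (Fin (m + 2) → ℝ) ≃ᵃ[ℝ] (Fin (m + 2) → ℝ) :=
    (LinearEquiv.ofInjectiveEndo (L0 a r) hinj).toAffineEquiv.trans
      (AffineEquiv.constVAdd ℝ (Fin (m + 2) → ℝ) (a 0)) with hA
  have hAx : ∀ x, A x = a 0 + L0 a r x := fun x => rfl
  refine ⟨A, ?_, ?_⟩
  · intro x hx
    have h1 : hom x ∈ Submodule.span ℝ (range fun i => hom (a i)) := by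
      rw [hasp]; exact Submodule.subset_span ⟨x, hx, rfl⟩
    rw [Submodule.mem_span_range_iff_exists_fun] at h1
    obtain ⟨c, hc⟩ := h1
    rw [Fin.sum_univ_three] at hc
    have hc1 := congrArg Prod.fst hc
    have hc2 := congrArg Prod.snd hc
    simp only [Prod.fst_add, Prod.smul_fst, hom_fst, smul_eq_mul, mul_one] at hc1
    simp only [Prod.snd_add, Prod.smul_snd, hom_snd] at hc2
    refine ⟨(c 1, c 2), ?_⟩
    rw [hAx, L0_apply]
    have e1 : (ia (c 1, c 2) : Fin (m + 2) → ℝ) 1 = c 1 := rfl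
    have e0 : (ia (c 1, c 2) : Fin (m + 2) → ℝ) 0 = c 2 := rfl
    have ej : ∀ j : Fin m, (ia (c 1, c 2) : Fin (m + 2) → ℝ) j.succ.succ = 0 := fun j => rfl
    rw [e1, e0]
    simp only [ej, zero_smul, Finset.sum_const_zero, add_zero]
    have e3 : c 0 = 1 - c 1 - c 2 := by linarith
    rw [← hc2, e3]
    module
  · intro x hx
    have h1 : hom x ∈ Submodule.span ℝ (range fun i => hom (r i)) := by
      rw [hrsp]; exact Submodule.subset_span ⟨x, hx, rfl⟩
    rw [Submodule.mem_span_range_iff_exists_fun] at h1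
    obtain ⟨c, hc⟩ := h1
    have hc1 := congrArg Prod.fst hc
    have hc2 := congrArg Prod.snd hc
    simp only [Prod.fst_sum, Prod.smul_fst, hom_fst, smul_eq_mul, mul_one] at hc1
    simp only [Prod.snd_sum, Prod.smul_snd, hom_snd] at hc2
    refine ⟨c, hc1, ?_⟩
    rw [hAx, L0_apply]
    have e1 : (iz c : Fin (m + 2) → ℝ) 1 = 0 := rfl
    have e0 : (iz c : Fin (m + 2) → ℝ) 0 = 0 := rfl
    have ej : ∀ j : Fin m, (iz c : Fin (m + 2) → ℝ) j.succ.succ = c j := fun j => rfl
    rw [e1, e0]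
    simp only [ej, zero_smul, smul_sub, Finset.sum_sub_distrib, ← Finset.sum_smul, hc1]
    rw [← hc2]
    module

end Pool.Agent.H4.PJ
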